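import Pool.Agent.SCX.Asm3

/-!
# Matrices which commute with a given one: definitions
-/

set_option autoImplicit false

namespace Pool.Agent.SCX

variable {d : ℕ}

/-- What is used of a matrix which commutes with the given one: it has the same Perron vectors, and it
is bounded on the transversal hyperplane. -/
structure Com (M : Matrix (Fin d) (Fin d) ℕ) (l f : Fin d → ℝ) (N C : ℝ) : Prop where
  N_gt : 1 < N
  left : ∀ j, ∑ i, l i * (M i j : ℝ) = N * l j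
  right : ∀ i, ∑ j, (M i j : ℝ) * f j = N * f i
  bdd : ∀ (v : Fin d → ℝ) (B : ℝ), ∑ i, l i * v i = 0 → (∀ i, |v i| ≤ B) →
    ∀ i, |∑ j, (M i j : ℝ) * v j| ≤ C * B

/-- The statement of `step2` for fixed constants. -/
def St2 (l f : Fin d → ℝ) (ρ Cf c C : ℝ) : Prop :=
  ∀ x : Fin d → ℝ, Law ρ x → ∀ (e : Fin d) (n : ℕ) (R T B : ℝ), C ≤ R → C * R ≤ B → B ≤ √T →
    C * T ≤ n → (∀ i, (n : ℝ) * |x i - f i| ≤ Cf) →
    ∀ w : Fin d → ℤ, T / 2 ≤ dot l w → dot l w ≤ T → (∀ i, |tr l f w i| ≤ √T) →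
      PL x n (fun s => ¬ HitZ l e R B w s) ≤
        (1 - c * ((B / √T) ^ (d - 1) * (√R / R ^ (d - 1)))) ^ ⌊(n : ℝ) / (C * T)⌋₊

/-- The statement of `final2` for fixed constants. -/
def Fi2 (l f : Fin d → ℝ) (ρ Cf c C : ℝ) : Prop :=
  ∀ x : Fin d → ℝ, Law ρ x → ∀ (e : Fin d) (n : ℕ) (T : ℝ), C ≤ T → C * T ≤ n →
    (∀ i, (n : ℝ) * |x i - f i| ≤ Cf) →
    ∀ w : Fin d → ℤ, T / 2 ≤ dot l w → dot l w ≤ T → (∀ i, |tr l f w i| ≤ √T) →
      PL x n (fun s => ¬ Hit0 e w s) ≤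
        (1 - c * (√T / √T ^ (d - 1))) ^ ⌊(n : ℝ) / (C * T)⌋₊

/-- All numerical requirements at scale `s`, where `N = exp s`. `T r` is the size of the region `r`,
`R r` the size of the window of the step from region `r` to region `r+1`, `R₀` the size of the window
of the first step, which takes place in the first `t` letters of two words. -/
structure Par2 (d m : ℕ) (C c' s : ℝ) (T R : ℕ → ℝ) (R₀ q t : ℝ) : Prop where
  q_ge : 1 ≤ q
  t_ge : C ≤ t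
  R₀_ge : C ≤ R₀
  R_ge : ∀ r < m, C ≤ R r
  R₀_eq : Real.exp s / R₀ ^ (d - 1) = T 0
  R_eq : ∀ r < m, Real.exp s / R r ^ (d - 1) = T (r + 1)
  T_le : ∀ r ≤ m, C * T r ≤ Real.exp s
  T_ge : ∀ r ≤ m, C ≤ T r
  T_mono : ∀ r < m, T (r + 1) ≤ T r
  t_le : C * t ≤ Real.exp s
  RT : ∀ r < m, C * R r ≤ √(T (r + 1))
  q_le : C * q ≤ √t
  R₀q : C * R₀ ^ 2 ≤ q * √t
  contr₀ : C * (q * √t) ≤ √(T 0)
  trials : ∀ r < m, Real.exp (c' * s) ≤
    1 / C * ((√(T (r + 1)) / √(T r)) ^ (d - 1) * (√(R r) / R r ^ (d - 1))) * (Real.exp s / T r)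
  trials_fin : Real.exp (c' * s) ≤ 1 / C * (√(T m) / √(T m) ^ (d - 1)) * (Real.exp s / T m)
  trials₀ : Real.exp (c' * s) ≤ 1 / C * (1 / R₀ ^ (d - 1)) * (√t / q)
  q_big : Real.exp (c' * s) ≤ q ^ 2 / C

end Pool.Agent.SCX
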